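import Pool.Agent.Helper95.LN.Stmts

/-! Row MVP of sheet LN (second copy): the mean value property. -/

set_option autoImplicit false

namespace Pool.Agent.Helper85.LN

open MeasureTheory Filter Pool.Agent.Helper95.PW Pool.Agent.Helper95.LN

theorem mvp_pdc {g : R3 → ℝ} (hg : ContDiff ℝ (⊤ : ℕ∞) g) (i : Fin 3) :
    ContDiff ℝ (⊤ : ℕ∞) (pd i g) := by
  have h1 : ContDiff ℝ (⊤ : ℕ∞) (fderiv ℝ g) := hg.fderiv_right (by simp)
  exact h1.clm_apply contDiff_const

theorem mvp_pds {g : R3 → ℝ} (hg : HasCompactSupport g) (i : Fin 3) :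
    HasCompactSupport (pd i g) := hg.fderiv_apply ℝ _

theorem mvp_diff {g : R3 → ℝ} (hg : ContDiff ℝ (⊤ : ℕ∞) g) : Differentiable ℝ g :=
  hg.differentiable (by simp)

theorem mvp_int {f g : R3 → ℝ} (hf : Continuous f) (hg : Continuous g)
    (hc : HasCompactSupport g) : Integrable (fun w => f w * g w) :=
  (hf.mul hg).integrable_of_hasCompactSupport (hc.mul_left)

theorem mvp_int' {f g : R3 → ℝ} (hf : Continuous f) (hg : Continuous g)
    (hc : HasCompactSupport g) : Integrable (fun w => g w * f w) :=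
  (hg.mul hf).integrable_of_hasCompactSupport (hc.mul_right)

/-- one integration by parts -/
theorem mvp_ibp {f g : R3 → ℝ} (hf : ContDiff ℝ (⊤ : ℕ∞) f) (hg : ContDiff ℝ (⊤ : ℕ∞) g)
    (hc : HasCompactSupport g) (i : Fin 3) :
    ∫ w, f w * pd i g w = - ∫ w, pd i f w * g w := by
  refine integral_mul_fderiv_eq_neg_fderiv_mul_of_integrable (v := Pi.single i 1)
    (f := f) (g := g) ?_ ?_ ?_ (fun x _ => mvp_diff hf x) (fun x _ => mvp_diff hg x)
  · exact mvp_int (mvp_pdc hf i).continuous hg.continuous hc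
  · exact mvp_int hf.continuous (mvp_pdc hg i).continuous (mvp_pds hc i)
  · exact mvp_int hf.continuous hg.continuous hc

theorem mvp_green {h D : R3 → ℝ} (hh : ContDiff ℝ (⊤ : ℕ∞) h) (hD : ContDiff ℝ (⊤ : ℕ∞) D)
    (hc : HasCompactSupport D) : ∫ w, h w * lap D w = ∫ w, lap h w * D w := by
  have e1 : ∀ i : Fin 3, ∫ w, h w * pd i (pd i D) w = ∫ w, pd i (pd i h) w * D w := by
    intro i
    rw [mvp_ibp hh (mvp_pdc hD i) (mvp_pds hc i) i, mvp_ibp (mvp_pdc hh i) hD hc i, neg_neg]
  have i1 : ∀ i : Fin 3, Integrable (fun w => h w * pd i (pd i D) w) := fun i =>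
    mvp_int hh.continuous (mvp_pdc (mvp_pdc hD i) i).continuous (mvp_pds (mvp_pds hc i) i)
  have i2 : ∀ i : Fin 3, Integrable (fun w => pd i (pd i h) w * D w) := fun i =>
    mvp_int (mvp_pdc (mvp_pdc hh i) i).continuous hD.continuous hc
  unfold lap
  simp only [Finset.mul_sum, Finset.sum_mul]
  rw [integral_finset_sum _ (fun i _ => i1 i), integral_finset_sum _ (fun i _ => i2 i)]
  exact Finset.sum_congr rfl fun i _ => e1 i

theorem mvp_pd_tr (g : R3 → ℝ) (x : R3) (i : Fin 3) :
    pd i (fun w => g (w - x)) = fun w => pd i g (w - x) := by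
  funext w
  unfold pd
  simp only [sub_eq_add_neg]
  rw [fderiv_comp_add_right]

theorem mvp_lap_tr (g : R3 → ℝ) (x w : R3) : lap (fun w => g (w - x)) w = lap g (w - x) := by
  unfold lap
  refine Finset.sum_congr rfl fun i _ => ?_
  rw [mvp_pd_tr g x i, mvp_pd_tr (pd i g) x i]

theorem mvp_pd_sub {f g : R3 → ℝ} (hf : Differentiable ℝ f) (hg : Differentiable ℝ g)
    (i : Fin 3) : pd i (fun w => f w - g w) = fun w => pd i f w - pd i g w := by
  funext w
  unfold pd
  rw [fderiv_fun_sub (hf w) (hg w)]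
  rfl

theorem mvp_lap_sub {f g : R3 → ℝ} (hf : ContDiff ℝ (⊤ : ℕ∞) f) (hg : ContDiff ℝ (⊤ : ℕ∞) g)
    (w : R3) : lap (fun w => f w - g w) w = lap f w - lap g w := by
  unfold lap
  rw [← Finset.sum_sub_distrib]
  refine Finset.sum_congr rfl fun i _ => ?_
  rw [mvp_pd_sub (mvp_diff hf) (mvp_diff hg) i,
    mvp_pd_sub (mvp_diff (mvp_pdc hf i)) (mvp_diff (mvp_pdc hg i)) i]

theorem mvp_lap_neg {f : R3 → ℝ} (w : R3) : lap (fun w => - f w) w = - lap f w := by
  have e : ∀ (g : R3 → ℝ) (i : Fin 3), pd i (fun w => - g w) = fun w => - pd i g w := by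
    intro g i
    funext w
    unfold pd
    rw [fderiv_fun_neg]
    rfl
  unfold lap
  rw [← Finset.sum_neg_distrib]
  refine Finset.sum_congr rfl fun i _ => ?_
  rw [e f i, e (pd i f) i]

theorem mvp_norm_le (y : R3) : ‖y‖ ≤ nr y := by
  unfold nr
  rw [pi_norm_le_iff_of_nonneg (Real.sqrt_nonneg _)]
  intro i
  rw [Real.norm_eq_abs]
  apply Real.abs_le_sqrt
  fin_cases i
  · simp; nlinarith [sq_nonneg (y 1), sq_nonneg (y 2)]
  · simp; nlinarith [sq_nonneg (y 0), sq_nonneg (y 2)]
  · simp; nlinarith [sq_nonneg (y 0), sq_nonneg (y 1)]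

theorem mvp_cs {g : R3 → ℝ} {a : ℝ} (x : R3) (hg : ∀ y, a ≤ nr y → g y = 0) :
    HasCompactSupport (fun w => g (w - x)) := by
  refine HasCompactSupport.intro (isCompact_closedBall x a) fun w hw => hg _ ?_
  rw [Metric.mem_closedBall, not_le, dist_eq_norm] at hw
  exact le_trans hw.le (mvp_norm_le _)

theorem mvp_main (hA : ST_PHA) (hB : ST_PHB) (hC : ST_PHC) (h : R3 → ℝ) (x : R3) (a : ℝ)
    (hh : ContDiff ℝ (⊤ : ℕ∞) h) (ha : 0 < a) (hl : ∀ w, nr (w - x) ≤ a → lap h w ≤ 0) :
    ∫ w, h w * et a (w - x) ≤ kap * h x := by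
  obtain ⟨-, hkap, -, hC⟩ := hC
  -- continuity
  have hcont : ContinuousAt h x := hh.continuous.continuousAt
  refine le_of_forall_pos_le_add fun ε hε => ?_
  have hε' : 0 < ε / kap := div_pos hε hkap
  obtain ⟨δ, hδ, hδh⟩ := Metric.continuousAt_iff.1 hcont (ε / kap) hε'
  -- the radius
  obtain ⟨t, ht1, htδ⟩ : ∃ t : ℝ, 1 ≤ t ∧ a / t < δ := by
    refine ⟨max 1 (2 * a / δ), le_max_left _ _, ?_⟩
    have h1 : 2 * a / δ ≤ max 1 (2 * a / δ) := le_max_right _ _
    have h0 : (0 : ℝ) < max 1 (2 * a / δ) := lt_of_lt_of_le one_pos (le_max_left _ _)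
    rw [div_lt_iff₀ h0]
    have h2 : δ * (2 * a / δ) ≤ δ * max 1 (2 * a / δ) := mul_le_mul_of_nonneg_left h1 hδ.le
    have h3 : δ * (2 * a / δ) = 2 * a := by field_simp
    rw [h3] at h2
    linarith
  have ht0 : 0 < t := lt_of_lt_of_le one_pos ht1
  have hb : 0 < a / t := div_pos ha ht0
  have hba : a / t ≤ a := div_le_self ha.le ht1
  obtain ⟨ca, na, za, -, -, Ia⟩ := hC a ha
  obtain ⟨cb, nb, zb, -, -, Ib⟩ := hC (a / t) hb
  obtain ⟨pa, qa, -, -, ma⟩ := hA a ha
  obtain ⟨pb, qb, -, -, -⟩ := hA (a / t) hb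
  have la := (hB a ha).1
  have lb := (hB (a / t) hb).1
  -- translated functions
  have tr : ContDiff ℝ (⊤ : ℕ∞) (fun w : R3 => w - x) := contDiff_id.sub contDiff_const
  have cA : ContDiff ℝ (⊤ : ℕ∞) (fun w => ph a (w - x)) := pa.comp tr
  have cB : ContDiff ℝ (⊤ : ℕ∞) (fun w => ph (a / t) (w - x)) := pb.comp tr
  have cD : ContDiff ℝ (⊤ : ℕ∞) (fun w => ph (a / t) (w - x) - ph a (w - x)) := cB.sub cA
  have sD : HasCompactSupport (fun w => ph (a / t) (w - x) - ph a (w - x)) :=
    mvp_cs (g := fun y => ph (a / t) y - ph a y) (a := a) x (fun y hy => by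
      rw [qa y hy, qb y (le_trans hba hy), sub_self])
  have G := mvp_green hh cD sD
  have e1 : ∀ w, lap (fun w => ph (a / t) (w - x) - ph a (w - x)) w =
      et a (w - x) - et (a / t) (w - x) := by
    intro w
    rw [mvp_lap_sub cB cA, mvp_lap_tr (ph (a / t)) x w, mvp_lap_tr (ph a) x w, la, lb]
    ring
  have sea : HasCompactSupport (fun w => et a (w - x)) := mvp_cs x za
  have seb : HasCompactSupport (fun w => et (a / t) (w - x)) := mvp_cs x zb
  have cea : Continuous (fun w => et a (w - x)) := (ca.comp tr).continuous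
  have ceb : Continuous (fun w => et (a / t) (w - x)) := (cb.comp tr).continuous
  have ia : Integrable (fun w => h w * et a (w - x)) := mvp_int hh.continuous cea sea
  have ib : Integrable (fun w => h w * et (a / t) (w - x)) := mvp_int hh.continuous ceb seb
  have e2 : ∫ w, h w * lap (fun w => ph (a / t) (w - x) - ph a (w - x)) w =
      (∫ w, h w * et a (w - x)) - ∫ w, h w * et (a / t) (w - x) := by
    rw [← integral_sub ia ib]
    refine integral_congr_ae (ae_of_all _ fun w => ?_)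
    simp only [e1]
    ring
  have e3 : ∫ w, lap h w * (ph (a / t) (w - x) - ph a (w - x)) ≤ 0 := by
    refine integral_nonpos fun w => ?_
    show lap h w * (ph (a / t) (w - x) - ph a (w - x)) ≤ 0
    by_cases hw : nr (w - x) ≤ a
    · exact mul_nonpos_of_nonpos_of_nonneg (hl w hw) (sub_nonneg.2 (ma t (w - x) ht1))
    · have hw' : a ≤ nr (w - x) := (not_le.1 hw).le
      rw [qa _ hw', qb _ (le_trans hba hw'), sub_self, mul_zero]
  rw [e2] at G
  have e4 : ∫ w, h w * et a (w - x) ≤ ∫ w, h w * et (a / t) (w - x) := by linarith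
  -- near the centre
  have Ib' : ∫ w, et (a / t) (w - x) = kap := by
    rw [integral_sub_right_eq_self (fun y => et (a / t) y) x]
    exact Ib
  have e5 : ∫ w, h w * et (a / t) (w - x) ≤ ∫ w, (h x + ε / kap) * et (a / t) (w - x) := by
    refine integral_mono ib ((ceb.integrable_of_hasCompactSupport seb).const_mul _) fun w => ?_
    show h w * et (a / t) (w - x) ≤ (h x + ε / kap) * et (a / t) (w - x)
    by_cases hw : a / t ≤ nr (w - x)
    · rw [zb _ hw, mul_zero, mul_zero]
    · apply mul_le_mul_of_nonneg_right _ (nb _)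
      have h1 : dist w x < δ := by
        rw [dist_eq_norm]
        exact lt_of_le_of_lt (mvp_norm_le _) (lt_trans (not_le.1 hw) htδ)
      have h2 := hδh h1
      rw [Real.dist_eq] at h2
      have := (abs_lt.1 h2).2
      linarith
  rw [integral_const_mul, Ib'] at e5
  have e6 : (h x + ε / kap) * kap = kap * h x + ε := by field_simp
  rw [e6] at e5
  exact le_trans e4 e5

theorem MVP (hA : ST_PHA) (hB : ST_PHB) (hC : ST_PHC) : ST_MVP := by
  intro h x a hh ha
  refine ⟨fun hl => ?_, fun hl => mvp_main hA hB hC h x a hh ha hl⟩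
  have h1 := mvp_main hA hB hC h x a hh ha (fun w hw => (hl w hw).le)
  have h2 := mvp_main hA hB hC (fun w => - h w) x a hh.neg ha (fun w hw => by
    rw [mvp_lap_neg, hl w hw, neg_zero])
  have e : ∫ w, (fun w => - h w) w * et a (w - x) = - ∫ w, h w * et a (w - x) := by
    rw [← integral_neg]
    refine integral_congr_ae (ae_of_all _ fun w => ?_)
    simp only
    ring
  rw [e] at h2
  simp only [mul_neg] at h2
  linarith

end Pool.Agent.Helper85.LN
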